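import Mathlib

set_option autoImplicit false

namespace Pool.Agent.H.MP_671a46_co

/-- cops at `c`, robber at `r`, cops to move; `M` is the relation of allowed moves -/
inductive Win {V ι : Type} (M : V → V → Prop) : (ι → V) → V → Prop
  | start (c : ι → V) (r : V) (i : ι) (h : c i = r) : Win M c r
  | capture (c c' : ι → V) (r : V) (hc : ∀ i, M (c i) (c' i)) (i : ι) (h : c' i = r) : Win M c r
  | step (c c' : ι → V) (r : V) (hc : ∀ i, M (c i) (c' i))
      (h : ∀ r', M r r' → Win M c' r') : Win M c r

/-- `k` cops have a winning strategy -/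
def CopsWin {V : Type} (M : V → V → Prop) (k : ℕ) : Prop := ∃ c : Fin k → V, ∀ r, Win M c r

end Pool.Agent.H.MP_671a46_co
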