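import Mathlib
import Pool.Agent.H.MP_671a46_co.Defs

set_option autoImplicit false

namespace Pool.Agent.H.MP_671a46_co

lemma Win.reindex {V ι κ : Type} {M : V → V → Prop} {c : ι → V} {r : V} (φ : κ → ι)
    (hφ : Function.Surjective φ) (h : Win M c r) : Win M (c ∘ φ) r := by
  induction h with
  | start c r i h =>
    obtain ⟨j, rfl⟩ := hφ i
    exact .start _ _ j h
  | capture c c' r hc i h =>
    obtain ⟨j, rfl⟩ := hφ i
    exact .capture _ (c' ∘ φ) _ (fun i => hc _) j h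
  | step c c' r hc _ ih => exact .step _ (c' ∘ φ) _ (fun i => hc _) ih

lemma Win.cover {V ι : Type} {M : V → V → Prop} (hM : ∀ a, ∃ b, M a b) {c : ι → V} {r : V} (i : ι)
    (h : M (c i) r) : Win M c r := by
  classical
  choose nb hnb using hM
  refine .capture _ (fun j => if j = i then r else nb (c j)) _ (fun j => ?_) i (by simp)
  by_cases e : j = i
  · subst e
    simpa using h
  · simpa [e] using hnb _

lemma not_win {V ι : Type} {M : V → V → Prop} (S : (ι → V) → V → Prop)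
    (h0 : ∀ c u, S c u → ∀ i, c i ≠ u ∧ ¬ M (c i) u)
    (h1 : ∀ c u c', S c u → (∀ i, M (c i) (c' i)) → (∀ i, c' i ≠ u) → ∃ u', M u u' ∧ S c' u')
    (c : ι → V) (u : V) (h : Win M c u) : ¬ S c u := by
  induction h with
  | start c r i h => exact fun hs => (h0 c r hs i).1 h
  | capture c c' r hc i h => exact fun hs => (h0 c r hs i).2 (h ▸ hc i)
  | step c c' r hc _ ih =>
    intro hs
    obtain ⟨u', h2, h3⟩ := h1 c r c' hs hc fun i e => (h0 c r hs i).2 (e ▸ hc i)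
    exact ih u' h2 h3

lemma pigeon {ι U : Type} [Fintype U] (B : Finset ι) (bad : ι → U → Prop)
    (h1 : ∀ i ∈ B, ∀ u u', bad i u → bad i u' → u = u') (h2 : ∀ i ∉ B, ∀ u, ¬ bad i u)
    (h3 : B.card < Fintype.card U) : ∃ u, ∀ i, ¬ bad i u := by
  by_contra h
  push Not at h
  choose f hf using h
  have hB : ∀ u, f u ∈ B := fun u => by_contra fun e => h2 _ e u (hf u)
  have := Finset.card_le_card_of_injOn (s := Finset.univ) (t := B) f (fun u _ => hB u)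
    fun u _ u' _ e => h1 _ (hB u) u u' (hf u) (e ▸ hf u')
  rw [Finset.card_univ] at this
  omega

/-- grid points -/
abbrev Pt (m t N : ℕ) : Type :=
  (Fin (m + 1) × Fin (N + 1) → Fin (N + 1)) × (Fin (N + 1) → Fin (m + 1)) × (Fin t → Fin (N + 1))

variable {m t g N : ℕ}

/-- change a first coordinate -/
def pA (d : Fin (m + 1) × Fin (N + 1)) (x : Fin (N + 1)) (p : Pt m t N) : Pt m t N :=
  (Function.update p.1 d x, p.2.1, p.2.2)

/-- change a second coordinate -/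
def pS (k : Fin (N + 1)) (x : Fin (m + 1)) (p : Pt m t N) : Pt m t N :=
  (p.1, Function.update p.2.1 k x, p.2.2)

/-- change a third coordinate -/
def pB (j : Fin t) (x : Fin (N + 1)) (p : Pt m t N) : Pt m t N :=
  (p.1, p.2.1, Function.update p.2.2 j x)

lemma upd_two {α β : Type} [DecidableEq α] {f f' : α → β} {a b : α} {x y : β} (hab : a ≠ b)
    (h1 : Function.update f a x = Function.update f' a x)
    (h2 : Function.update f b y = Function.update f' b y) : f = f' := by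
  funext e
  by_cases h : e = a
  · subst h
    simpa [hab] using congrFun h2 e
  · simpa [h] using congrFun h1 e

/-- vertices -/
inductive V (m t g N : ℕ) : Type
  | r (p : Pt m t N)
  | v (i : Fin (m + 1))
  | w (j : Fin t) (k : Fin (N + 1)) (p : Pt m t N) (h1 : p.2.1 k = 0) (h2 : p.2.2 j = 0)
  | y (d : Fin (m + 1) × Fin (N + 1)) (p : Pt m t N) (h : p.1 d = 0)
  | z (k : Fin (N + 1)) (p : Pt m t N) (h : p.2.1 k = 0)
  | q (l : Fin g)

instance : Finite (V m t g N) := Finite.of_equiv _ (proxy_equiv% (V m t g N))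

/-- directed form of the edges -/
def E (grp : Fin t → Fin g) : V m t g N → V m t g N → Prop
  | .r p, .y d p' _ => p' = pA d 0 p
  | .r p, .z k p' _ => p' = pS k 0 p
  | .v i, .y d _ _ => d.1 = i
  | .w j k p _ _, .z k' p' _ => k = k' ∧ p = pB j 0 p'
  | .w j _ _ _ _, .q l => grp j = l
  | _, _ => False

@[simp] lemma E_rr (grp : Fin t → Fin g) (p1 : Pt m t N)
    (p2 : Pt m t N) :
    E grp (.r p1 : V m t g N) (.r p2) ↔ False := Iff.rfl

@[simp] lemma E_rv (grp : Fin t → Fin g) (p1 : Pt m t N)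
    (i2 : Fin (m + 1)) :
    E grp (.r p1 : V m t g N) (.v i2) ↔ False := Iff.rfl

@[simp] lemma E_rw (grp : Fin t → Fin g) (p1 : Pt m t N)
    (j2 : Fin t) (k2 : Fin (N + 1)) (p2 : Pt m t N) (a2 : p2.2.1 k2 = 0) (b2 : p2.2.2 j2 = 0) :
    E grp (.r p1 : V m t g N) (.w j2 k2 p2 a2 b2) ↔ False := Iff.rfl

@[simp] lemma E_ry (grp : Fin t → Fin g) (p1 : Pt m t N)
    (d2 : Fin (m + 1) × Fin (N + 1)) (p2 : Pt m t N) (a2 : p2.1 d2 = 0) :
    E grp (.r p1 : V m t g N) (.y d2 p2 a2) ↔ p2 = pA d2 0 p1 := Iff.rfl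

@[simp] lemma E_rz (grp : Fin t → Fin g) (p1 : Pt m t N)
    (k2 : Fin (N + 1)) (p2 : Pt m t N) (a2 : p2.2.1 k2 = 0) :
    E grp (.r p1 : V m t g N) (.z k2 p2 a2) ↔ p2 = pS k2 0 p1 := Iff.rfl

@[simp] lemma E_rq (grp : Fin t → Fin g) (p1 : Pt m t N)
    (l2 : Fin g) :
    E grp (.r p1 : V m t g N) (.q l2) ↔ False := Iff.rfl

@[simp] lemma E_vr (grp : Fin t → Fin g) (i1 : Fin (m + 1))
    (p2 : Pt m t N) :
    E grp (.v i1 : V m t g N) (.r p2) ↔ False := Iff.rfl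

@[simp] lemma E_vv (grp : Fin t → Fin g) (i1 : Fin (m + 1))
    (i2 : Fin (m + 1)) :
    E grp (.v i1 : V m t g N) (.v i2) ↔ False := Iff.rfl

@[simp] lemma E_vw (grp : Fin t → Fin g) (i1 : Fin (m + 1))
    (j2 : Fin t) (k2 : Fin (N + 1)) (p2 : Pt m t N) (a2 : p2.2.1 k2 = 0) (b2 : p2.2.2 j2 = 0) :
    E grp (.v i1 : V m t g N) (.w j2 k2 p2 a2 b2) ↔ False := Iff.rfl

@[simp] lemma E_vy (grp : Fin t → Fin g) (i1 : Fin (m + 1))
    (d2 : Fin (m + 1) × Fin (N + 1)) (p2 : Pt m t N) (a2 : p2.1 d2 = 0) :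
    E grp (.v i1 : V m t g N) (.y d2 p2 a2) ↔ d2.1 = i1 := Iff.rfl

@[simp] lemma E_vz (grp : Fin t → Fin g) (i1 : Fin (m + 1))
    (k2 : Fin (N + 1)) (p2 : Pt m t N) (a2 : p2.2.1 k2 = 0) :
    E grp (.v i1 : V m t g N) (.z k2 p2 a2) ↔ False := Iff.rfl

@[simp] lemma E_vq (grp : Fin t → Fin g) (i1 : Fin (m + 1))
    (l2 : Fin g) :
    E grp (.v i1 : V m t g N) (.q l2) ↔ False := Iff.rfl

@[simp] lemma E_wr (grp : Fin t → Fin g) (j1 : Fin t) (k1 : Fin (N + 1)) (p1 : Pt m t N) (a1 : p1.2.1 k1 = 0) (b1 : p1.2.2 j1 = 0)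
    (p2 : Pt m t N) :
    E grp (.w j1 k1 p1 a1 b1 : V m t g N) (.r p2) ↔ False := Iff.rfl

@[simp] lemma E_wv (grp : Fin t → Fin g) (j1 : Fin t) (k1 : Fin (N + 1)) (p1 : Pt m t N) (a1 : p1.2.1 k1 = 0) (b1 : p1.2.2 j1 = 0)
    (i2 : Fin (m + 1)) :
    E grp (.w j1 k1 p1 a1 b1 : V m t g N) (.v i2) ↔ False := Iff.rfl

@[simp] lemma E_ww (grp : Fin t → Fin g) (j1 : Fin t) (k1 : Fin (N + 1)) (p1 : Pt m t N) (a1 : p1.2.1 k1 = 0) (b1 : p1.2.2 j1 = 0)
    (j2 : Fin t) (k2 : Fin (N + 1)) (p2 : Pt m t N) (a2 : p2.2.1 k2 = 0) (b2 : p2.2.2 j2 = 0) :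
    E grp (.w j1 k1 p1 a1 b1 : V m t g N) (.w j2 k2 p2 a2 b2) ↔ False := Iff.rfl

@[simp] lemma E_wy (grp : Fin t → Fin g) (j1 : Fin t) (k1 : Fin (N + 1)) (p1 : Pt m t N) (a1 : p1.2.1 k1 = 0) (b1 : p1.2.2 j1 = 0)
    (d2 : Fin (m + 1) × Fin (N + 1)) (p2 : Pt m t N) (a2 : p2.1 d2 = 0) :
    E grp (.w j1 k1 p1 a1 b1 : V m t g N) (.y d2 p2 a2) ↔ False := Iff.rfl

@[simp] lemma E_wz (grp : Fin t → Fin g) (j1 : Fin t) (k1 : Fin (N + 1)) (p1 : Pt m t N) (a1 : p1.2.1 k1 = 0) (b1 : p1.2.2 j1 = 0)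
    (k2 : Fin (N + 1)) (p2 : Pt m t N) (a2 : p2.2.1 k2 = 0) :
    E grp (.w j1 k1 p1 a1 b1 : V m t g N) (.z k2 p2 a2) ↔ k1 = k2 ∧ p1 = pB j1 0 p2 := Iff.rfl

@[simp] lemma E_wq (grp : Fin t → Fin g) (j1 : Fin t) (k1 : Fin (N + 1)) (p1 : Pt m t N) (a1 : p1.2.1 k1 = 0) (b1 : p1.2.2 j1 = 0)
    (l2 : Fin g) :
    E grp (.w j1 k1 p1 a1 b1 : V m t g N) (.q l2) ↔ grp j1 = l2 := Iff.rfl

@[simp] lemma E_yr (grp : Fin t → Fin g) (d1 : Fin (m + 1) × Fin (N + 1)) (p1 : Pt m t N) (a1 : p1.1 d1 = 0)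
    (p2 : Pt m t N) :
    E grp (.y d1 p1 a1 : V m t g N) (.r p2) ↔ False := Iff.rfl

@[simp] lemma E_yv (grp : Fin t → Fin g) (d1 : Fin (m + 1) × Fin (N + 1)) (p1 : Pt m t N) (a1 : p1.1 d1 = 0)
    (i2 : Fin (m + 1)) :
    E grp (.y d1 p1 a1 : V m t g N) (.v i2) ↔ False := Iff.rfl

@[simp] lemma E_yw (grp : Fin t → Fin g) (d1 : Fin (m + 1) × Fin (N + 1)) (p1 : Pt m t N) (a1 : p1.1 d1 = 0)
    (j2 : Fin t) (k2 : Fin (N + 1)) (p2 : Pt m t N) (a2 : p2.2.1 k2 = 0) (b2 : p2.2.2 j2 = 0) :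
    E grp (.y d1 p1 a1 : V m t g N) (.w j2 k2 p2 a2 b2) ↔ False := Iff.rfl

@[simp] lemma E_yy (grp : Fin t → Fin g) (d1 : Fin (m + 1) × Fin (N + 1)) (p1 : Pt m t N) (a1 : p1.1 d1 = 0)
    (d2 : Fin (m + 1) × Fin (N + 1)) (p2 : Pt m t N) (a2 : p2.1 d2 = 0) :
    E grp (.y d1 p1 a1 : V m t g N) (.y d2 p2 a2) ↔ False := Iff.rfl

@[simp] lemma E_yz (grp : Fin t → Fin g) (d1 : Fin (m + 1) × Fin (N + 1)) (p1 : Pt m t N) (a1 : p1.1 d1 = 0)
    (k2 : Fin (N + 1)) (p2 : Pt m t N) (a2 : p2.2.1 k2 = 0) :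
    E grp (.y d1 p1 a1 : V m t g N) (.z k2 p2 a2) ↔ False := Iff.rfl

@[simp] lemma E_yq (grp : Fin t → Fin g) (d1 : Fin (m + 1) × Fin (N + 1)) (p1 : Pt m t N) (a1 : p1.1 d1 = 0)
    (l2 : Fin g) :
    E grp (.y d1 p1 a1 : V m t g N) (.q l2) ↔ False := Iff.rfl

@[simp] lemma E_zr (grp : Fin t → Fin g) (k1 : Fin (N + 1)) (p1 : Pt m t N) (a1 : p1.2.1 k1 = 0)
    (p2 : Pt m t N) :
    E grp (.z k1 p1 a1 : V m t g N) (.r p2) ↔ False := Iff.rfl

@[simp] lemma E_zv (grp : Fin t → Fin g) (k1 : Fin (N + 1)) (p1 : Pt m t N) (a1 : p1.2.1 k1 = 0)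
    (i2 : Fin (m + 1)) :
    E grp (.z k1 p1 a1 : V m t g N) (.v i2) ↔ False := Iff.rfl

@[simp] lemma E_zw (grp : Fin t → Fin g) (k1 : Fin (N + 1)) (p1 : Pt m t N) (a1 : p1.2.1 k1 = 0)
    (j2 : Fin t) (k2 : Fin (N + 1)) (p2 : Pt m t N) (a2 : p2.2.1 k2 = 0) (b2 : p2.2.2 j2 = 0) :
    E grp (.z k1 p1 a1 : V m t g N) (.w j2 k2 p2 a2 b2) ↔ False := Iff.rfl

@[simp] lemma E_zy (grp : Fin t → Fin g) (k1 : Fin (N + 1)) (p1 : Pt m t N) (a1 : p1.2.1 k1 = 0)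
    (d2 : Fin (m + 1) × Fin (N + 1)) (p2 : Pt m t N) (a2 : p2.1 d2 = 0) :
    E grp (.z k1 p1 a1 : V m t g N) (.y d2 p2 a2) ↔ False := Iff.rfl

@[simp] lemma E_zz (grp : Fin t → Fin g) (k1 : Fin (N + 1)) (p1 : Pt m t N) (a1 : p1.2.1 k1 = 0)
    (k2 : Fin (N + 1)) (p2 : Pt m t N) (a2 : p2.2.1 k2 = 0) :
    E grp (.z k1 p1 a1 : V m t g N) (.z k2 p2 a2) ↔ False := Iff.rfl

@[simp] lemma E_zq (grp : Fin t → Fin g) (k1 : Fin (N + 1)) (p1 : Pt m t N) (a1 : p1.2.1 k1 = 0)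
    (l2 : Fin g) :
    E grp (.z k1 p1 a1 : V m t g N) (.q l2) ↔ False := Iff.rfl

@[simp] lemma E_qr (grp : Fin t → Fin g) (l1 : Fin g)
    (p2 : Pt m t N) :
    E grp (.q l1 : V m t g N) (.r p2) ↔ False := Iff.rfl

@[simp] lemma E_qv (grp : Fin t → Fin g) (l1 : Fin g)
    (i2 : Fin (m + 1)) :
    E grp (.q l1 : V m t g N) (.v i2) ↔ False := Iff.rfl

@[simp] lemma E_qw (grp : Fin t → Fin g) (l1 : Fin g)
    (j2 : Fin t) (k2 : Fin (N + 1)) (p2 : Pt m t N) (a2 : p2.2.1 k2 = 0) (b2 : p2.2.2 j2 = 0) :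
    E grp (.q l1 : V m t g N) (.w j2 k2 p2 a2 b2) ↔ False := Iff.rfl

@[simp] lemma E_qy (grp : Fin t → Fin g) (l1 : Fin g)
    (d2 : Fin (m + 1) × Fin (N + 1)) (p2 : Pt m t N) (a2 : p2.1 d2 = 0) :
    E grp (.q l1 : V m t g N) (.y d2 p2 a2) ↔ False := Iff.rfl

@[simp] lemma E_qz (grp : Fin t → Fin g) (l1 : Fin g)
    (k2 : Fin (N + 1)) (p2 : Pt m t N) (a2 : p2.2.1 k2 = 0) :
    E grp (.q l1 : V m t g N) (.z k2 p2 a2) ↔ False := Iff.rfl

@[simp] lemma E_qq (grp : Fin t → Fin g) (l1 : Fin g)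
    (l2 : Fin g) :
    E grp (.q l1 : V m t g N) (.q l2) ↔ False := Iff.rfl

/-- the graph -/
def G (grp : Fin t → Fin g) : SimpleGraph (V m t g N) where
  Adj a b := E grp a b ∨ E grp b a
  symm := ⟨fun _ _ h => h.symm⟩
  loopless := ⟨fun a h => by cases a <;> simp at h⟩

lemma adj_iff (grp : Fin t → Fin g) (a b : V m t g N) :
    (G grp).Adj a b ↔ E grp a b ∨ E grp b a := Iff.rfl

/-- the side of a vertex -/
def side : V m t g N → Bool
  | .r _ => false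
  | .v _ => false
  | .w _ _ _ _ _ => false
  | _ => true

lemma side_adj {grp : Fin t → Fin g} {a b : V m t g N} (h : (G grp).Adj a b) : side b = !side a := by
  cases a <;> cases b <;> simp [adj_iff, side] at h ⊢

/-- line through a point in a first direction -/
def ly (d : Fin (m + 1) × Fin (N + 1)) (p : Pt m t N) : V m t g N := .y d (pA d 0 p) (by simp [pA])

/-- line through a point in a second direction -/
def lz (k : Fin (N + 1)) (p : Pt m t N) : V m t g N := .z k (pS k 0 p) (by simp [pS])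

/-- exit vertex -/
def ex (j : Fin t) (k : Fin (N + 1)) (p : Pt m t N) (h : p.2.1 k = 0) : V m t g N :=
  .w j k (pB j 0 p) (show (pB j 0 p).2.1 k = 0 from h) (by simp [pB])

/-- neighbour of an exit vertex -/
def zx (j : Fin t) (x k : Fin (N + 1)) (p : Pt m t N) (h : p.2.1 k = 0) : V m t g N :=
  .z k (pB j x p) (show (pB j x p).2.1 k = 0 from h)

/-- label of a vertex -/
def lab (j : Fin t) : V m t g N → Fin (N + 1)
  | .r p => p.2.2 j
  | .w _ _ p _ _ => p.2.2 j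
  | .y _ p _ => p.2.2 j
  | .z _ p _ => p.2.2 j
  | _ => 0

/-- covering -/
def Cov (grp : Fin t → Fin g) (a b : V m t g N) : Prop := (G grp).Adj a b ∨ a = b

variable {grp : Fin t → Fin g}

lemma F0 (j : Fin t) (c : V m t g N) (p : Pt m t N) (h : Cov grp c (.r p)) : lab j c = p.2.2 j := by
  cases c <;> simp [Cov, adj_iff, lab] at h ⊢ <;> subst h <;> simp [pA, pS]

lemma L1 (i : Fin (m + 1)) (p : Pt m t N) (c : V m t g N) (h1 : c ≠ .v i) (h2 : c ≠ .r p)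
    (k k' : Fin (N + 1)) (e : Cov grp c (ly (i, k) p)) (e' : Cov grp c (ly (i, k') p)) : k = k' := by
  by_contra hk
  cases c <;> simp [Cov, adj_iff, ly] at e e' h1 h2
  · simp only [pA, Prod.mk.injEq] at e e'
    exact h2 (Prod.ext (upd_two (by simpa using hk) e.1 e'.1).symm (Prod.ext e.2.1.symm e.2.2.symm))
  · exact h1 e.symm
  · exact hk (by simpa using e.1.symm.trans e'.1)

lemma L2 (p : Pt m t N) (c : V m t g N) (h2 : c ≠ .r p)
    (k k' : Fin (N + 1)) (e : Cov grp c (lz k p)) (e' : Cov grp c (lz k' p)) : k = k' := by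
  by_contra hk
  cases c <;> simp [Cov, adj_iff, lz] at e e' h2
  · simp only [pS, Prod.mk.injEq] at e e'
    exact h2 (Prod.ext e.1.symm (Prod.ext (upd_two hk e.2.1 e'.2.1).symm e.2.2.symm))
  · exact hk (e.1.symm.trans e'.1)
  · exact hk (e.1.symm.trans e'.1)

lemma L3 (d : Fin (m + 1) × Fin (N + 1)) (p : Pt m t N) (h : p.1 d = 0) (c : V m t g N)
    (h2 : c ≠ .y d p h) (x x' : Fin (N + 1)) (e : Cov grp c (.r (pA d x p)))
    (e' : Cov grp c (.r (pA d x' p))) : x = x' := by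
  cases c <;> simp [Cov, adj_iff] at e e' h2
  · simpa [pA] using congrArg (fun s : Pt m t N => s.1 d) (e.symm.trans e')
  · rename_i d' p' h'
    by_cases hd : d' = d
    · subst hd
      exact absurd (by rw [e]; simp [pA, ← h]) (h2 rfl)
    · simpa [pA, Ne.symm hd] using congrArg (fun s : Pt m t N => s.1 d) (e.symm.trans e')
  · simpa [pA, pS] using congrArg (fun s : Pt m t N => s.1 d) (e.symm.trans e')

lemma F1 (j : Fin t) (k : Fin (N + 1)) (p : Pt m t N) (h1 : p.2.1 k = 0) (h2 : p.2.2 j = 0)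
    (c : V m t g N) (hc : c ≠ .w j k p h1 h2) (x : Fin (N + 1))
    (e : Cov grp c (zx j x k p h1)) : lab j c = x := by
  cases c <;> simp [Cov, adj_iff, lab, zx] at e hc ⊢
  · simpa [pB, pS] using (congrArg (fun s : Pt m t N => s.2.2 j) e).symm
  · rename_i j' k' p' h1' h2'
    by_cases hj : j' = j
    · subst hj
      exact absurd (by rw [e.2]; simp [pB, ← h2]) (hc rfl e.1)
    · rw [e.2]
      simp [pB, Ne.symm hj]
  · rw [e.2]
    simp [pB]

/-- the units around a vertex of the second kind -/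
def unit (sec : Fin g → Fin t) (k : Fin (N + 1)) (p : Pt m t N) (h : p.2.1 k = 0) :
    Fin (m + 1) ⊕ Fin g → V m t g N
  | .inl x => .r (pS k x p)
  | .inr l => ex (sec l) k p h

lemma L4 (sec : Fin g → Fin t) (hs : ∀ l, grp (sec l) = l) (k : Fin (N + 1)) (p : Pt m t N)
    (h : p.2.1 k = 0) (c : V m t g N) (hc : c ≠ .z k p h) (u u' : Fin (m + 1) ⊕ Fin g)
    (e : Cov grp c (unit sec k p h u)) (e' : Cov grp c (unit sec k p h u')) : u = u' := by
  have inj : ∀ l l', sec l = sec l' → l = l' := fun l l' e => by rw [← hs l, e, hs]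
  have hp : ∀ x, pS k 0 (pS k x p) = p := fun x => by simp [pS, ← h]
  cases c <;> rcases u with x | l <;> rcases u' with x' | l' <;>
    simp [Cov, adj_iff, unit, ex] at e e' hc ⊢
  · simpa [pS] using congrArg (fun s : Pt m t N => s.2.1 k) (e.symm.trans e')
  · exact inj _ _ (e.1.symm.trans e'.1)
  · simpa [pS, pA] using congrArg (fun s : Pt m t N => s.2.1 k) (e.symm.trans e')
  · rename_i k' p' h'
    by_cases hk : k' = k
    · subst hk
      exact absurd (e.trans (hp x)) (hc rfl)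
    · simpa [pS, Ne.symm hk] using congrArg (fun s : Pt m t N => s.2.1 k) (e.symm.trans e')
  · obtain ⟨rfl, -⟩ := e'
    exact hc rfl (e.trans (hp x))
  · obtain ⟨rfl, -⟩ := e
    exact hc rfl (e'.trans (hp x'))
  · by_contra hl
    obtain ⟨rfl, e⟩ := e
    simp only [pB, Prod.mk.injEq] at e e'
    exact hc rfl (Prod.ext e.1.symm (Prod.ext e.2.1.symm
      (upd_two (fun s => hl (inj _ _ s)) e.2.2 e'.2.2.2).symm))
  · rw [hs] at e e'
    exact e.trans e'.symm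

lemma adj_ry (d : Fin (m + 1) × Fin (N + 1)) (p : Pt m t N) :
    (G grp).Adj (.r p : V m t g N) (ly d p) := Or.inl rfl

lemma adj_rz (k : Fin (N + 1)) (p : Pt m t N) : (G grp).Adj (.r p : V m t g N) (lz k p) := Or.inl rfl

lemma adj_vy (d : Fin (m + 1) × Fin (N + 1)) (p : Pt m t N) (h : p.1 d = 0) :
    (G grp).Adj (.v d.1 : V m t g N) (.y d p h) := Or.inl rfl

lemma adj_yr (d : Fin (m + 1) × Fin (N + 1)) (p : Pt m t N) (h : p.1 d = 0) (x : Fin (N + 1)) :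
    (G grp).Adj (.y d p h : V m t g N) (.r (pA d x p)) := Or.inr (by simp [pA, ← h])

lemma adj_zr (k : Fin (N + 1)) (p : Pt m t N) (h : p.2.1 k = 0) (x : Fin (m + 1)) :
    (G grp).Adj (.z k p h : V m t g N) (.r (pS k x p)) := Or.inr (by simp [pS, ← h])

lemma adj_zw (j : Fin t) (k : Fin (N + 1)) (p : Pt m t N) (h : p.2.1 k = 0) :
    (G grp).Adj (.z k p h : V m t g N) (ex j k p h) := Or.inr ⟨rfl, rfl⟩

lemma adj_wz (j : Fin t) (k : Fin (N + 1)) (p : Pt m t N) (h1 : p.2.1 k = 0) (h2 : p.2.2 j = 0)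
    (x : Fin (N + 1)) : (G grp).Adj (.w j k p h1 h2 : V m t g N) (zx j x k p h1) :=
  Or.inl ⟨rfl, by simp [pB, ← h2]⟩

lemma adj_qw (j : Fin t) (k : Fin (N + 1)) (p : Pt m t N) (h1 : p.2.1 k = 0) (h2 : p.2.2 j = 0) :
    (G grp).Adj (.q (grp j) : V m t g N) (.w j k p h1 h2) := Or.inr rfl

lemma nb_r {p : Pt m t N} {u : V m t g N} (h : (G grp).Adj (.r p) u) :
    (∃ d p' h', u = .y d p' h') ∨ ∃ k p' h', u = .z k p' h' := by
  cases u <;> simp [adj_iff] at h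
  · exact Or.inl ⟨_, _, _, rfl⟩
  · exact Or.inr ⟨_, _, _, rfl⟩

lemma nb_v {i : Fin (m + 1)} {u : V m t g N} (h : (G grp).Adj (.v i) u) :
    ∃ d p' h', u = .y d p' h' := by
  cases u <;> simp [adj_iff] at h
  exact ⟨_, _, _, rfl⟩

lemma nb_y {d : Fin (m + 1) × Fin (N + 1)} {p : Pt m t N} {h' : p.1 d = 0} {u : V m t g N}
    (h : (G grp).Adj (.y d p h') u) : (∃ p', u = .r p') ∨ ∃ i, u = .v i := by
  cases u <;> simp [adj_iff] at h
  · exact Or.inl ⟨_, rfl⟩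
  · exact Or.inr ⟨_, rfl⟩

lemma nb_w {j : Fin t} {k : Fin (N + 1)} {p : Pt m t N} {h1 : p.2.1 k = 0} {h2 : p.2.2 j = 0}
    {u : V m t g N} (h : (G grp).Adj (.w j k p h1 h2) u) :
    (∃ k p' h', u = .z k p' h') ∨ ∃ l, u = .q l := by
  cases u <;> simp [adj_iff] at h
  · exact Or.inl ⟨_, _, _, rfl⟩
  · exact Or.inr ⟨_, rfl⟩

lemma nb_z {k : Fin (N + 1)} {p : Pt m t N} {h' : p.2.1 k = 0} {u : V m t g N}
    (h : (G grp).Adj (.z k p h') u) : (∃ x, u = .r (pS k x p)) ∨ ∃ j, u = ex j k p h' := by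
  cases u <;> simp [adj_iff] at h
  · rename_i p'
    exact Or.inl ⟨p'.2.1 k, by rw [h]; simp [pS]⟩
  · obtain ⟨rfl, rfl⟩ := h
    exact Or.inr ⟨_, rfl⟩

lemma F2 (j : Fin t) (c c' : V m t g N) (h : (G grp).Adj c c') (hv : ∀ i, c ≠ .v i)
    (hw : ∀ j k p h1 h2, c ≠ .w j k p h1 h2) (p : Pt m t N) (e : Cov grp c' (.r p)) :
    lab j c = p.2.2 j := by
  rw [← F0 j c' p e]
  cases c' with
  | r p' => exact F0 j c p' (Or.inl h)
  | v i => simp [Cov, adj_iff] at e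
  | w j k p h1 h2 => simp [Cov, adj_iff] at e
  | y d p' h' =>
    rcases nb_y h.symm with ⟨p1, rfl⟩ | ⟨i, rfl⟩
    · exact (F0 j _ p1 (Or.inl h.symm)).symm
    · exact absurd rfl (hv i)
  | z k p' h' =>
    rcases nb_z h.symm with ⟨x, rfl⟩ | ⟨i, rfl⟩
    · exact (F0 j _ _ (Or.inl h.symm)).symm
    · exact absurd rfl (hw _ _ _ _ _)
  | q l => simp [Cov, adj_iff] at e

lemma has_nb (hs : Function.Surjective grp) (a : V m t g N) : ∃ b, (G grp).Adj a b := by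
  cases a with
  | r p => exact ⟨_, adj_rz 0 p⟩
  | v i => exact ⟨_, adj_vy (i, 0) 0 rfl⟩
  | w j k p h1 h2 => exact ⟨_, adj_wz j k p h1 h2 0⟩
  | y d p h => exact ⟨_, adj_yr d p h 0⟩
  | z k p h => exact ⟨_, adj_zr k p h 0⟩
  | q l =>
    obtain ⟨j, rfl⟩ := hs l
    exact ⟨_, adj_qw j 0 0 rfl rfl⟩

lemma conn (hs : Function.Surjective grp) : (G grp : SimpleGraph (V m t g N)).Connected := by
  have hr : ∀ p, (G grp).Reachable (.r p : V m t g N) (.v 0) := fun p =>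
    (adj_ry (0, 0) p).reachable.trans (adj_vy (0, 0) _ _).reachable.symm
  have hz : ∀ k p h, (G grp).Reachable (.z k p h : V m t g N) (.v 0) := fun k p h =>
    (adj_zr k p h 0).reachable.trans (hr _)
  have hw : ∀ j k p h1 h2, (G grp).Reachable (.w j k p h1 h2 : V m t g N) (.v 0) :=
    fun j k p h1 h2 => (adj_wz j k p h1 h2 0).reachable.trans (hz _ _ _)
  have hy : ∀ d p h, (G grp).Reachable (.y d p h : V m t g N) (.v 0) := fun d p h =>
    (adj_yr d p h 0).reachable.trans (hr _)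
  have h : ∀ a : V m t g N, (G grp).Reachable a (.v 0) := by
    intro a
    cases a with
    | r p => exact hr p
    | v i => exact (adj_vy (i, 0) 0 rfl).reachable.trans (hy _ _ _)
    | w j k p h1 h2 => exact hw _ _ _ _ _
    | y d p h => exact hy _ _ _
    | z k p h => exact hz _ _ _
    | q l =>
      obtain ⟨j, rfl⟩ := hs l
      exact (adj_qw j 0 0 rfl rfl).reachable.trans (hw _ _ _ _ _)
  have : Nonempty (V m t g N) := ⟨.v 0⟩
  exact ⟨fun a b => (h a).trans (h b).symm⟩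

end Pool.Agent.H.MP_671a46_co
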