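import Mathlib
import Pool.Agent.H.MP_671a46_co.Geo

set_option autoImplicit false

namespace Pool.Agent.H.MP_671a46_co

variable {m t g N : ℕ} {grp : Fin t → Fin g}

lemma fresh {ι : Type} [Fintype ι] (h : Fintype.card ι ≤ N) (f : ι → Fin (N + 1)) :
    ∃ x, ∀ i, f i ≠ x :=
  pigeon Finset.univ (fun i x => f i = x) (fun _ _ _ _ e e' => e.symm.trans e') (by simp)
    (by simp; omega)

lemma fresh_r {ι : Type} [Fintype ι] (h : Fintype.card ι ≤ N) (j : Fin t) (c : ι → V m t g N) :
    ∃ p : Pt m t N, ∀ i, ¬ Cov grp (c i) (.r p) := by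
  obtain ⟨x, hx⟩ := fresh h fun i => lab j (c i)
  exact ⟨(0, 0, fun _ => x), fun i e => hx i (F0 j _ _ e)⟩

lemma go_z {ι : Type} [Fintype ι] (h : Fintype.card ι ≤ N) (c : ι → V m t g N) (p : Pt m t N)
    (hc : ∀ i, c i ≠ .r p) : ∃ k, ∀ i, ¬ Cov grp (c i) (lz k p) :=
  pigeon Finset.univ (fun i k => Cov grp (c i) (lz k p)) (fun i _ => L2 p _ (hc i)) (by simp)
    (by simp; omega)

theorem pasLow {ι : Type} [Fintype ι] (hs : Function.Surjective grp) (j0 : Fin t)
    (h : Fintype.card ι ≤ N) (h' : Fintype.card ι < m + 1 + g) (c : ι → V m t g N) :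
    ∃ u, ¬ Win (Cov grp) c u := by
  obtain ⟨p, hp⟩ := fresh_r (grp := grp) h j0 c
  choose sec hsec using hs
  refine ⟨.r p, fun hw => not_win (fun c u => (∀ i, ¬ Cov grp (c i) u) ∧ ((∃ p, u = .r p) ∨
    (∃ k p h, u = .z k p h) ∨ ∃ j k p h1 h2, u = .w j k p h1 h2))
    (fun c u hS i => ⟨fun e => hS.1 i (Or.inr e), hS.1 i⟩) ?_ c _ hw ⟨hp, Or.inl ⟨p, rfl⟩⟩⟩
  rintro c u c' ⟨-, ⟨p, rfl⟩ | ⟨k, p, hk, rfl⟩ | ⟨j, k, p, h1, h2, rfl⟩⟩ - hc
  · obtain ⟨k, hk⟩ := go_z (grp := grp) h c' p hc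
    exact ⟨_, Or.inl (adj_rz k p), hk, Or.inr (Or.inl ⟨_, _, _, rfl⟩)⟩
  · obtain ⟨x | l, hu⟩ := pigeon Finset.univ (fun i u => Cov grp (c' i) (unit sec k p hk u))
      (fun i _ => L4 sec hsec k p hk _ (hc i)) (by simp) (by simpa using h')
    · exact ⟨_, Or.inl (adj_zr k p hk x), hu, Or.inl ⟨_, rfl⟩⟩
    · exact ⟨_, Or.inl (adj_zw _ k p hk), hu, Or.inr (Or.inr ⟨_, _, _, _, _, rfl⟩)⟩
  · obtain ⟨x, hx⟩ := fresh h fun i => lab j (c' i)
    exact ⟨_, Or.inl (adj_wz j k p h1 h2 x), fun i e => hx i (F1 j k p h1 h2 _ (hc i) x e),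
      Or.inr (Or.inl ⟨_, _, _, rfl⟩)⟩

open Classical in
/-- safe states of the robber in the active game -/
def Safe (grp : Fin t → Fin g) {ι : Type} [Fintype ι] (A : Finset ι) (c : ι → V m t g N)
    (u : V m t g N) : Prop :=
  (∀ i, ¬ Cov grp (c i) u) ∧ (∀ i, i ∈ A ↔ side (c i) ≠ side u) ∧ ((∃ p, u = .r p) ∨
    (∃ d p h, u = .y d p h) ∨
    ((∃ k p h, u = .z k p h) ∧ A.card = m + 1 ∧ ∀ i ∈ A, ∃ a, c i = .v a) ∨
    ((∃ j k p h1 h2, u = .w j k p h1 h2) ∧ A.card = m + 1 ∧ ∀ i ∈ A, ∃ d p h, c i = .y d p h) ∨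
    ∃ k p h j, u = .z k p h ∧ (Finset.univ.filter fun i => ∃ a, c i = .v a).card < m + 1 ∧
      ∀ i, (∃ a, c i = .v a) ∨ (lab j (c i) ≠ p.2.2 j ∧ ∀ j k p h1 h2, c i ≠ .w j k p h1 h2))

lemma from_r {ι : Type} [Fintype ι] (h : Fintype.card ι ≤ N) (A : Finset ι) (hA : A.card ≤ m + 1)
    (c : ι → V m t g N) (p : Pt m t N) (hc : ∀ i, c i ≠ .r p)
    (hp : ∀ i, i ∈ A ↔ side (c i) = false) : ∃ u, (G grp).Adj (.r p) u ∧ Safe grp A c u := by
  classical
  by_cases hv : ∀ a, ∃ i, c i = .v a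
  · choose f hf using hv
    have hinj : Function.Injective f := fun a b e => by
      have := (hf a).symm.trans (e ▸ hf b)
      simpa using this
    have hsub : Finset.univ.image f ⊆ A := by
      intro i hi
      obtain ⟨a, -, rfl⟩ := Finset.mem_image.mp hi
      rw [hp, hf]
      rfl
    have hcard : (Finset.univ.image f).card = m + 1 := by
      rw [Finset.card_image_of_injective _ hinj]
      simp
    have heq := Finset.eq_of_subset_of_card_le hsub (by omega)
    obtain ⟨k, hk⟩ := go_z (grp := grp) h c p hc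
    refine ⟨_, adj_rz k p, hk, fun i => by rw [hp]; simp [lz, side], Or.inr (Or.inr (Or.inl
      ⟨⟨_, _, _, rfl⟩, heq ▸ hcard, fun i hi => ?_⟩))⟩
    rw [← heq] at hi
    obtain ⟨a, -, rfl⟩ := Finset.mem_image.mp hi
    exact ⟨a, hf a⟩
  · push Not at hv
    obtain ⟨a, ha⟩ := hv
    obtain ⟨k, hk⟩ := pigeon Finset.univ (fun i k => Cov grp (c i) (ly (a, k) p))
      (fun i _ => L1 a p _ (ha i) (hc i)) (by simp) (by simp; omega)
    exact ⟨_, adj_ry (a, k) p, hk, fun i => by rw [hp]; simp [ly, side],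
      Or.inr (Or.inl ⟨_, _, _, rfl⟩)⟩

lemma safe_step {ι : Type} [Fintype ι] [DecidableEq ι] (hs : Function.Surjective grp)
    (h : Fintype.card ι ≤ N) (A : Finset ι) (hA : A.card ≤ m + 1)
    (hB : A.card = m + 1 → Aᶜ.card < t) (c : ι → V m t g N) (u : V m t g N) (c' : ι → V m t g N)
    (hS : Safe grp A c u) (hm : ∀ i, (G grp).Adj (c i) (c' i)) (hc : ∀ i, c' i ≠ u) :
    ∃ u', (G grp).Adj u u' ∧ Safe grp A c' u' := by
  classical
  obtain ⟨-, hpar, hS⟩ := hS
  have hp : ∀ i, i ∈ A ↔ side (c' i) = side u := fun i => by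
    rw [hpar, side_adj (hm i)]
    cases side (c i) <;> cases side u <;> simp
  have hp' : ∀ u', (G grp).Adj u u' → ∀ i, i ∈ A ↔ side (c' i) ≠ side u' := fun u' e i => by
    rw [hp, side_adj e]
    cases side (c' i) <;> cases side u <;> simp
  choose sec hsec using hs
  rcases hS with ⟨p, rfl⟩ | ⟨d, p, hd, rfl⟩ | ⟨⟨k, p, hk, rfl⟩, h1, h2⟩ |
    ⟨⟨j, k, p, a1, a2, rfl⟩, h1, h2⟩ | ⟨k, p, hk, j, rfl, h1, h2⟩
  · exact from_r h A hA c' p hc hp
  · obtain ⟨x, hx⟩ := pigeon Finset.univ (fun i x => Cov grp (c' i) (.r (pA d x p)))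
      (fun i _ => L3 d p hd _ (hc i)) (by simp) (by simp; omega)
    exact ⟨_, adj_yr d p hd x, hx, hp' _ (adj_yr d p hd x), Or.inl ⟨_, rfl⟩⟩
  · have hy : ∀ i ∈ A, ∃ d p h, c' i = .y d p h := fun i hi => by
      obtain ⟨a, ha⟩ := h2 i hi
      exact nb_v (ha ▸ hm i)
    obtain ⟨j, hj⟩ := pigeon Aᶜ (fun i j => Cov grp (c' i) (ex j k p hk))
      (fun i hi j j' e e' => by
        have hsd : side (c' i) = false := by
          have := mt (hp i).mpr (Finset.mem_compl.mp hi)
          exact Bool.eq_false_iff.mpr this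
        rcases e with e | e
        · have := side_adj e
          rw [hsd] at this
          exact absurd this Bool.false_ne_true
        · rcases e' with e' | e'
          · have := side_adj e'
            rw [hsd] at this
            exact absurd this Bool.false_ne_true
          · have := e.symm.trans e'
            simp only [ex, V.w.injEq] at this
            exact this.1)
      (fun i hi j e => by
        obtain ⟨d, p', h', e'⟩ := hy i (by simpa using hi)
        rw [e'] at e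
        simp [Cov, adj_iff, ex] at e) (by simpa using hB h1)
    exact ⟨_, adj_zw j k p hk, hj, hp' _ (adj_zw j k p hk),
      Or.inr (Or.inr (Or.inr (Or.inl ⟨⟨_, _, _, _, _, rfl⟩, h1, hy⟩)))⟩
  · obtain ⟨x, hx⟩ := fresh h fun i => lab j (c' i)
    refine ⟨_, adj_wz j k p a1 a2 x, fun i e => hx i (F1 j k p a1 a2 _ (hc i) x e),
      hp' _ (adj_wz j k p a1 a2 x), Or.inr (Or.inr ?_)⟩
    by_cases hv : ∀ i ∈ A, ∃ a, c' i = .v a
    · exact Or.inl ⟨⟨_, _, _, rfl⟩, h1, hv⟩
    · push Not at hv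
      obtain ⟨i0, hi0, hv⟩ := hv
      refine Or.inr (Or.inr ⟨_, _, _, j, rfl, ?_, fun i => ?_⟩)
      · refine lt_of_lt_of_eq (Finset.card_lt_card ⟨fun i hi => ?_, fun hh => ?_⟩) h1
        · obtain ⟨a, ha⟩ := (Finset.mem_filter.mp hi).2
          rw [hp, ha]
          rfl
        · obtain ⟨a, ha⟩ := (Finset.mem_filter.mp (hh hi0)).2
          exact hv a ha
      · by_cases hi : i ∈ A
        · obtain ⟨d, p', h', e⟩ := h2 i hi
          rcases nb_y (e ▸ hm i) with ⟨p1, e1⟩ | e1
          · exact Or.inr ⟨by simpa [pB] using hx i, by simp [e1]⟩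
          · exact Or.inl e1
        · refine Or.inr ⟨by simpa [pB] using hx i, fun _ _ _ _ _ e => hi ?_⟩
          rw [hp, e]
          rfl
  · obtain ⟨x, hx⟩ := pigeon (Finset.univ.filter fun i => ∃ a, c i = .v a)
      (fun i x => Cov grp (c' i) (.r (pS k x p)))
      (fun i _ x x' e e' => Sum.inl_injective (L4 sec hsec k p hk _ (hc i) (.inl x) (.inl x') e e'))
      (fun i hi x e => by
        simp only [Finset.mem_filter, Finset.mem_univ, true_and] at hi
        obtain ⟨h3, h4⟩ := (h2 i).resolve_left hi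
        exact h3 (F2 j _ _ (hm i) (fun a e => hi ⟨a, e⟩) h4 (pS k x p) e)) (by simpa using h1)
    exact ⟨_, adj_zr k p hk x, hx, hp' _ (adj_zr k p hk x), Or.inl ⟨_, rfl⟩⟩

theorem actLow {ι : Type} [Fintype ι] (hs : Function.Surjective grp) (j0 : Fin t)
    (h : Fintype.card ι ≤ N) (h' : Fintype.card ι < m + 1 + t) (ht : t ≤ m + 2)
    (c : ι → V m t g N) : ∃ u, ¬ Win (G grp).Adj c u := by
  classical
  obtain ⟨p, hp⟩ := fresh_r (grp := grp) h j0 c
  have key : ∀ A : Finset ι, A.card ≤ Aᶜ.card → ∀ u, Safe grp A c u → ¬ Win (G grp).Adj c u := by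
    intro A hA u hS hw
    have := Finset.card_add_card_compl A
    exact not_win (Safe grp A) (fun c u hS i => ⟨fun e => hS.1 i (Or.inr e),
      fun e => hS.1 i (Or.inl e)⟩) (safe_step hs h A (by omega) (by omega)) c u hw hS
  let A := Finset.univ.filter fun i => side (c i) = false
  by_cases hA : A.card ≤ Aᶜ.card
  · have := Finset.card_add_card_compl A
    obtain ⟨u, -, hu⟩ := from_r (grp := grp) h A (by omega) c p (fun i e => hp i (Or.inr e))
      (by simp [A])
    exact ⟨u, key A hA u hu⟩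
  · exact ⟨.r p, key Aᶜ (by rw [compl_compl]; omega) _
      ⟨hp, fun i => by rw [show side (V.r p : V m t g N) = false from rfl]; simp [A],
        Or.inl ⟨p, rfl⟩⟩⟩

/-- lines covering the points of a vertex of the second kind -/
def cov (k : Fin (N + 1)) (p : Pt m t N) (i : Fin (m + 1)) : V m t g N := ly (i, 0) (pS k i p)

lemma adj_vcov (k : Fin (N + 1)) (p : Pt m t N) (i : Fin (m + 1)) :
    (G grp).Adj (.v i : V m t g N) (cov k p i) := adj_vy (i, 0) _ _

lemma adj_covr (k : Fin (N + 1)) (p : Pt m t N) (i : Fin (m + 1)) :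
    (G grp).Adj (cov k p i : V m t g N) (.r (pS k i p)) := (adj_ry _ _).symm

lemma K1 (hs : Function.Surjective grp) (pos : Fin t → V m t g N)
    (hpos : ∀ j, pos j = .q (grp j) ∨ (G grp).Adj (pos j) (.q (grp j))) (u : V m t g N)
    (hu : side u = true) : Win (G grp).Adj (Sum.elim V.v pos) u := by
  classical
  cases u with
  | r p => simp [side] at hu
  | v i => simp [side] at hu
  | w j k p h1 h2 => simp [side] at hu
  | y d p h => exact Win.cover (has_nb hs) (.inl d.1) (adj_vy d p h)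
  | q l =>
    obtain ⟨j, rfl⟩ := hs l
    rcases hpos j with e | e
    · exact .start _ _ (.inr j) e
    · exact Win.cover (has_nb hs) (.inr j) e
  | z k p h =>
    refine .step _ (Sum.elim (cov k p) fun j => if pos j = .q (grp j) then ex j k p h
      else .q (grp j)) _ ?_ fun u hu => ?_
    · rintro (i | j)
      · exact adj_vcov k p i
      · by_cases e : pos j = .q (grp j)
        · simp only [Sum.elim_inr, e, if_true]
          exact adj_qw _ _ _ _ _
        · simp only [Sum.elim_inr, e, if_false]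
          exact (hpos j).resolve_left e
    · rcases nb_z hu with ⟨x, rfl⟩ | ⟨j, rfl⟩
      · exact Win.cover (has_nb hs) (.inl x) (adj_covr k p x)
      · by_cases e : pos j = .q (grp j)
        · exact .start _ _ (.inr j) (by simp [e])
        · refine Win.cover (has_nb hs) (.inr j) ?_
          simp only [Sum.elim_inr, e, if_false]
          exact adj_qw _ _ _ _ _

lemma stepSide {ι : Type} (c c' : ι → V m t g N) (s : Bool) (h : ∀ i, (G grp).Adj (c i) (c' i))
    (hw : ∀ u, side u = (!s) → Win (G grp).Adj c' u) (u : V m t g N) (hu : side u = s) :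
    Win (G grp).Adj c u :=
  .step _ c' _ h fun u' e => hw u' (by rw [side_adj e, hu])

lemma actA (hs : Function.Surjective grp) (u : V m t g N) (hu : side u = true) :
    Win (G grp).Adj (Sum.elim (fun _ : Fin (m + 1) => V.r 0) fun _ : Fin t => V.z 0 0 rfl) u := by
  refine stepSide _ (Sum.elim (fun i => ly (i, 0) 0) fun j => ex j 0 0 rfl) true ?_
    (stepSide _ _ false ?_ (K1 hs (fun j => .q (grp j)) fun _ => Or.inl rfl)) u hu
  · rintro (i | j)
    · exact adj_ry _ _
    · exact adj_zw _ _ _ _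
  · rintro (i | j)
    · exact (adj_vy (i, 0) _ _).symm
    · exact (adj_qw _ _ _ _ _).symm

lemma adj_z0 : (G grp).Adj (V.z 0 0 rfl : V m t g N) (.r 0) := Or.inr (by simp [pS]; rfl)

lemma actB (hs : Function.Surjective grp) (P : Fin t → Prop) [DecidablePred P] (u : V m t g N)
    (hu : side u = false) : Win (G grp).Adj (Sum.elim (fun _ : Fin (m + 1) => V.z 0 0 rfl)
      fun j : Fin t => if P j then V.z 0 0 rfl else V.r 0) u := by
  refine stepSide _ (Sum.elim (fun _ => V.r 0) fun j => if P j then ex j 0 0 rfl else V.z 0 0 rfl)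
    false ?_ (stepSide _ (Sum.elim (fun i => ly (i, 0) 0) fun j => if P j then .q (grp j) else
      ex j 0 0 rfl) true ?_ (stepSide _ _ false ?_
    (K1 hs (fun j => if P j then ex j 0 0 rfl else .q (grp j)) fun j => ?_))) u hu
  · rintro (i | j)
    · exact adj_z0
    · by_cases e : P j <;> simp only [Sum.elim_inr, e, if_true, if_false]
      · exact adj_zw _ _ _ _
      · exact adj_z0.symm
  · rintro (i | j)
    · exact adj_ry _ _
    · by_cases e : P j <;> simp only [Sum.elim_inr, e, if_true, if_false]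
      · exact (adj_qw _ _ _ _ _).symm
      · exact adj_zw _ _ _ _
  · rintro (i | j)
    · exact (adj_vy (i, 0) _ _).symm
    · by_cases e : P j <;> simp only [Sum.elim_inr, e, if_true, if_false]
      · exact adj_qw _ _ _ _ _
      · exact (adj_qw _ _ _ _ _).symm
  · by_cases e : P j <;> simp only [e, if_true, if_false]
    · exact Or.inr (adj_qw _ _ _ _ _).symm
    · exact Or.inl trivial

theorem actUp (hs : Function.Surjective grp) (ht : t = m + 1 ∨ t = m + 2) (u : V m t g N) :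
    Win (G grp).Adj (Sum.elim (fun _ : Fin (m + 1) => V.r 0) fun _ : Fin t => V.z 0 0 rfl) u := by
  cases hu : side u
  · rcases ht with rfl | rfl
    · convert (actB hs (fun _ => False) u hu).reindex Sum.swap Sum.swap_rightInverse.surjective using 1
      funext i
      rcases i with i | i <;> simp
    · convert (actB hs (fun j => j = 0) u hu).reindex (Sum.elim (fun i : Fin (m + 1) => .inr i.succ)
        fun j : Fin (m + 2) => Fin.cases (.inr 0) (fun i => .inl i) j) ?_ using 1
      · funext i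
        rcases i with i | i
        · simp
        · refine Fin.cases ?_ (fun i => ?_) i <;> simp
      · rintro (i | j)
        · exact ⟨.inr i.succ, by simp⟩
        · refine Fin.cases ⟨.inr 0, by simp⟩ (fun i => ⟨.inl i, by simp⟩) j
  · exact actA hs u hu

/-- a configuration of the passive game -/
def cfg (l0 : Fin g) (f : Fin (m + 1) → V m t g N) (e : V m t g N) :
    Fin (m + 1) ⊕ Fin g → V m t g N :=
  Sum.elim f fun l => if l = l0 then e else .q l

lemma cfg_move (l0 : Fin g) {f f' : Fin (m + 1) → V m t g N} {e e' : V m t g N}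
    (h1 : ∀ i, Cov grp (f i) (f' i)) (h2 : Cov grp e e') (i : Fin (m + 1) ⊕ Fin g) :
    Cov grp (cfg l0 f e i) (cfg l0 f' e' i) := by
  rcases i with i | l
  · exact h1 i
  · by_cases h : l = l0 <;> simp only [cfg, Sum.elim_inr, h, if_true, if_false]
    · exact h2
    · exact Or.inr rfl

theorem pasUp (j0 : Fin t) (u : V m t g N) :
    Win (Cov grp) (cfg (grp j0) V.v (.q (grp j0))) u := by
  have hM : ∀ a : V m t g N, ∃ b, Cov grp a b := fun a => ⟨a, Or.inr rfl⟩
  have hq : ∀ (f : Fin (m + 1) → V m t g N) l, cfg (grp j0) f (.q (grp j0)) (.inr l) = .q l :=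
    fun f l => by by_cases h : l = grp j0 <;> simp [cfg, h]
  have hw : ∀ (f : Fin (m + 1) → V m t g N) j k p h1 h2,
      Win (Cov grp) (cfg (grp j0) f (.q (grp j0))) (.w j k p h1 h2) := fun f j k p h1 h2 =>
    Win.cover hM (.inr (grp j)) (by rw [hq]; exact Or.inl (adj_qw _ _ _ _ _))
  have W1 : ∀ k p h, Win (Cov grp) (cfg (grp j0) (cov k p) (.q (grp j0)) :
      Fin (m + 1) ⊕ Fin g → V m t g N) (.z k p h) := by
    intro k p h
    refine .step _ (cfg (grp j0) (Function.update (cov k p) 0 (.r (pS k 0 p))) (.q (grp j0))) _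
      (cfg_move _ (fun i => ?_) (Or.inr rfl)) ?_
    · by_cases e : i = 0
      · subst e
        simpa [Cov] using Or.inl (adj_covr k p 0)
      · simp [e, Cov]
    · rintro u (hu | rfl)
      · rcases nb_z hu with ⟨x, rfl⟩ | ⟨j, rfl⟩
        · refine Win.cover hM (.inl x) ?_
          by_cases e : x = 0
          · subst e
            exact Or.inr (by simp [cfg])
          · exact Or.inl (by simpa [cfg, e] using adj_covr k p x)
        · exact hw _ _ _ _ _ _
      · exact Win.cover hM (.inl 0) (Or.inl (by simpa [cfg] using (adj_zr k p h 0).symm))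
  have W2 : ∀ (f : Fin (m + 1) → V m t g N) e k p h, (∀ i, Cov grp (f i) (cov k p i)) →
      Cov grp e (.q (grp j0)) → Win (Cov grp) (cfg (grp j0) f e) (.z k p h) := by
    intro f e k p h h1 h2
    refine .step _ _ _ (cfg_move _ h1 h2) ?_
    rintro u (hu | rfl)
    · rcases nb_z hu with ⟨x, rfl⟩ | ⟨j, rfl⟩
      · exact Win.cover hM (.inl x) (Or.inl (adj_covr k p x))
      · exact hw _ _ _ _ _ _
    · exact W1 k p h
  have hv : ∀ k p i, Cov grp (V.v i : V m t g N) (cov k p i) := fun k p i => Or.inl (adj_vcov k p i)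
  have W3 : ∀ k p (e : V m t g N) j k' p' h1 h2, Cov grp e (.q (grp j0)) →
      Win (Cov grp) (cfg (grp j0) (cov k p) e) (.w j k' p' h1 h2) := by
    intro k p e j k' p' h1 h2 he
    refine .step _ _ _ (cfg_move _ (fun i => Or.inl (adj_vcov k p i).symm) he) ?_
    rintro u (hu | rfl)
    · rcases nb_w hu with ⟨k, p, h, rfl⟩ | ⟨l, rfl⟩
      · exact W2 _ _ _ _ _ (hv _ _) (Or.inr rfl)
      · exact .start _ _ (.inr l) (hq _ _)
    · exact hw _ _ _ _ _ _
  have hy : ∀ (e : V m t g N) d p h, Win (Cov grp) (cfg (grp j0) V.v e) (.y d p h) :=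
    fun e d p h => Win.cover hM (.inl d.1) (Or.inl (adj_vy d p h))
  have he : ∀ k p h, Cov grp (ex j0 k p h : V m t g N) (.q (grp j0)) := fun k p h =>
    Or.inl (adj_qw _ _ _ _ _).symm
  have W4 : ∀ k1 p1 h1 k p h, Win (Cov grp) (cfg (grp j0) V.v (.z k1 p1 h1 : V m t g N))
      (.z k p h) := by
    intro k1 p1 h1 k p h
    refine .step _ _ _ (cfg_move _ (hv k p) (Or.inl (adj_zw j0 k1 p1 h1))) ?_
    rintro u (hu | rfl)
    · rcases nb_z hu with ⟨x, rfl⟩ | ⟨j, rfl⟩
      · exact Win.cover hM (.inl x) (Or.inl (adj_covr k p x))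
      · exact W3 _ _ _ _ _ _ _ _ (he _ _ _)
    · exact W2 _ _ _ _ _ (fun _ => Or.inr rfl) (he _ _ _)
  have W5 : ∀ p, Win (Cov grp) (cfg (grp j0) V.v (ex j0 0 (pS 0 0 p) (by simp [pS]) : V m t g N))
      (.r p) := by
    intro p
    refine .step _ _ _ (cfg_move _ (fun _ => Or.inr rfl) (Or.inl (adj_zw j0 0 _ _).symm)) ?_
    rintro u (hu | rfl)
    · rcases nb_r hu with ⟨d, p', h, rfl⟩ | ⟨k, p', h, rfl⟩
      · exact hy _ _ _ _
      · exact W4 _ _ _ _ _ _
    · exact Win.cover hM (.inr (grp j0)) (Or.inl (by simpa [cfg, lz] using (adj_rz 0 p).symm))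
  cases u with
  | r p =>
    refine .step _ _ _ (cfg_move _ (fun _ => Or.inr rfl)
      (Or.inl (he 0 (pS 0 0 p) (by simp [pS]) |>.resolve_right (by simp [ex])).symm)) ?_
    rintro u (hu | rfl)
    · rcases nb_r hu with ⟨d, p', h, rfl⟩ | ⟨k, p', h, rfl⟩
      · exact hy _ _ _ _
      · exact W2 _ _ _ _ _ (hv _ _) (he _ _ _)
    · exact W5 p
  | v i => exact .start _ _ (.inl i) rfl
  | w j k p h1 h2 => exact hw _ _ _ _ _ _
  | y d p h => exact hy _ _ _ _
  | z k p h => exact W2 _ _ _ _ _ (hv _ _) (Or.inr rfl)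
  | q l => exact .start _ _ (.inr l) (hq _ _)

end Pool.Agent.H.MP_671a46_co
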